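import Pool.Agent.W163.P3.Stm2

set_option autoImplicit false
open Finset

namespace Pool.Agent.W721.P3.E
open Pool.Agent.W163.P3

lemma code_lt {V : Type} {r : V → V → ℕ} (h : Ori r) (x y : V) : r x y < 3 := by
  rcases h x y with ⟨h1, _⟩ | ⟨h1, _⟩ | ⟨h1, _⟩ <;> omega

lemma sd_ne (j k l : ℕ) (hj : j < 4) (hk : k < 4) (hl : l < 4) (h1 : j ≠ k) (h2 : l ≠ j)
    (h3 : l ≠ k) : sd j l ≠ sd k l := by
  interval_cases j <;> interval_cases k <;> interval_cases l <;> simp [sd] at *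

lemma sum_pt {V : Type} [Fintype V] (q : V → ℕ) :
    (pt q 0).card + (pt q 1).card + (pt q 2).card + (pt q 3).card
      = (univ.filter (fun w : V => q w < 4)).card ∧
    (univ.filter (fun w : V => q w < 4)).card + (univ.filter (fun w : V => 4 ≤ q w)).card
      = Fintype.card V := by
  constructor
  · simp only [pt, Finset.card_filter, ← Finset.sum_add_distrib]
    apply Finset.sum_congr rfl
    intro w _
    by_cases h0 : q w = 0
    · simp [h0]
    by_cases h1 : q w = 1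
    · simp [h1]
    by_cases h2 : q w = 2
    · simp [h2]
    by_cases h3 : q w = 3
    · simp [h3]
    have : ¬ (q w < 4) := by omega
    simp [h0, h1, h2, h3, this]
  · have := Finset.card_filter_add_card_filter_not (s := (univ : Finset V)) (fun w : V => q w < 4)
    simpa [not_lt, Finset.card_univ] using this

/-- a misplaced vertex has many nonstandard pairs -/
lemma row_ge {V : Type} [Fintype V] (r : V → V → ℕ) (q : V → ℕ) (v : V) (j l m : ℕ)
    (hq : q v < 4) (hj : j < 4) (hl : l < 4) (hm : m < 4) (h1 : j ≠ q v) (h2 : l ≠ j)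
    (h3 : l ≠ q v) (h4 : m ≠ j) (h5 : m ≠ q v) (h6 : l ≠ m) :
    (pt q l).card + (pt q m).card ≤ (∑ w, fk r q v w) + Dv r q v j := by
  simp only [pt, Dv, Finset.card_filter, ← Finset.sum_add_distrib]
  apply Finset.sum_le_sum
  intro w _
  by_cases hwl : q w = l
  · have hwm : ¬ (q w = m) := by omega
    rw [if_pos hwl, if_neg hwm]
    by_cases hr : r v w = sd j (q w)
    · have : fk r q v w = 1 := by
        unfold fk
        rw [if_pos]
        refine ⟨hq, by omega, by omega, ?_⟩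
        rw [hr]
        exact sd_ne j (q v) (q w) hj hq (by omega) h1 (by omega) (by omega)
      omega
    · rw [if_pos ⟨by omega, by omega, hr⟩]
      omega
  · by_cases hwm : q w = m
    · rw [if_neg hwl, if_pos hwm]
      by_cases hr : r v w = sd j (q w)
      · have : fk r q v w = 1 := by
          unfold fk
          rw [if_pos]
          refine ⟨hq, by omega, by omega, ?_⟩
          rw [hr]
          exact sd_ne j (q v) (q w) hj hq (by omega) h1 (by omega) (by omega)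
        omega
      · rw [if_pos ⟨by omega, by omega, hr⟩]
        omega
    · rw [if_neg hwl, if_neg hwm]
      omega

lemma two_others' : ∀ j k : Fin 4, j ≠ k →
    ∃ l m : Fin 4, l ≠ j ∧ l ≠ k ∧ m ≠ j ∧ m ≠ k ∧ l ≠ m := by decide

lemma two_others (j k : ℕ) (hj : j < 4) (hk : k < 4) (h : j ≠ k) :
    ∃ l m : ℕ, l < 4 ∧ m < 4 ∧ l ≠ j ∧ l ≠ k ∧ m ≠ j ∧ m ≠ k ∧ l ≠ m := by
  obtain ⟨l, m, h1, h2, h3, h4, h5⟩ := two_others' ⟨j, hj⟩ ⟨k, hk⟩ (by
    intro e; exact h (congrArg Fin.val e))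
  refine ⟨l.1, m.1, l.2, m.2, ?_, ?_, ?_, ?_, ?_⟩
  · intro e; exact h1 (Fin.ext e)
  · intro e; exact h2 (Fin.ext e)
  · intro e; exact h3 (Fin.ext e)
  · intro e; exact h4 (Fin.ext e)
  · intro e; exact h5 (Fin.ext e)

/-- pairs of parts are large -/
lemma pair_ge (y0 y1 y2 y3 th f : ℝ) (hf : 0 ≤ f) (hth : 0 ≤ th)
    (hsum : y0 + y1 + y2 + y3 = 1 - th)
    (hC : 2 * f + 2 * th + 6 * (4 * (y0 ^ 2 + y1 ^ 2 + y2 ^ 2 + y3 ^ 2) - (1 - th) ^ 2)
      ≤ 292 / 100000) :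
    488 / 1000 ≤ y0 + y1 := by
  by_contra hc
  push Not at hc
  have h1 : (2 * (y0 + y1) - (1 - th)) ^ 2
      ≤ 4 * (y0 ^ 2 + y1 ^ 2 + y2 ^ 2 + y3 ^ 2) - (1 - th) ^ 2 := by
    rw [← hsum]
    nlinarith [sq_nonneg (y0 - y1), sq_nonneg (y2 - y3), sq_nonneg (y0 - y2 - y1 + y3),
      sq_nonneg (y0 - y3 - y1 + y2)]
  have hs : 0 ≤ 4 * (y0 ^ 2 + y1 ^ 2 + y2 ^ 2 + y3 ^ 2) - (1 - th) ^ 2 :=
    le_trans (sq_nonneg _) h1
  have h2 : th ≤ 146 / 100000 := by linarith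
  have h3 : (2 * (y0 + y1) - (1 - th)) ^ 2 ≤ 487 / 1000000 := by linarith
  have h4 : 2 * (y0 + y1) - (1 - th) < - (2254 / 100000) := by linarith
  nlinarith

/-- for each pair of parts -/
lemma pair_all (y : ℕ → ℝ) (th f : ℝ) (hf : 0 ≤ f) (hth : 0 ≤ th)
    (hsum : y 0 + y 1 + y 2 + y 3 = 1 - th)
    (hC : 2 * f + 2 * th + 6 * (4 * (y 0 ^ 2 + y 1 ^ 2 + y 2 ^ 2 + y 3 ^ 2) - (1 - th) ^ 2)
      ≤ 292 / 100000) (k l : ℕ) (hk : k < 4) (hl : l < 4) (h : k ≠ l) :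
    488 / 1000 ≤ y k + y l := by
  have h01 := pair_ge (y 0) (y 1) (y 2) (y 3) th f hf hth hsum hC
  have h02 := pair_ge (y 0) (y 2) (y 1) (y 3) th f hf hth (by linarith) (by linarith)
  have h03 := pair_ge (y 0) (y 3) (y 1) (y 2) th f hf hth (by linarith) (by linarith)
  have h12 := pair_ge (y 1) (y 2) (y 0) (y 3) th f hf hth (by linarith) (by linarith)
  have h13 := pair_ge (y 1) (y 3) (y 0) (y 2) th f hf hth (by linarith) (by linarith)
  have h23 := pair_ge (y 2) (y 3) (y 0) (y 1) th f hf hth (by linarith) (by linarith)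
  interval_cases k <;> interval_cases l <;> first
    | exact absurd rfl h
    | linarith

/-- the final real inequality -/
lemma final (p e N x0 x1 x2 x3 : ℝ) (hp : 2 / 5 < p) (h4 : 4 * e ≤ p - 2 / 5)
    (he : 0 ≤ e) (hN : 0 < N)
    (hx0 : 0 ≤ x0) (hx1 : 0 ≤ x1) (hx2 : 0 ≤ x2) (hx3 : 0 ≤ x3)
    (hsum : x0 + x1 + x2 + x3 = N)
    (h01 : 48 / 100 * N ≤ x0 + x1) (h02 : 48 / 100 * N ≤ x0 + x2) (h03 : 48 / 100 * N ≤ x0 + x3)
    (h12 : 48 / 100 * N ≤ x1 + x2) (h13 : 48 / 100 * N ≤ x1 + x3) (h23 : 48 / 100 * N ≤ x2 + x3)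
    (hT : (p - e) * N ^ 3 ≤ p * (x0 ^ 3 + x1 ^ 3 + x2 ^ 3 + x3 ^ 3)
      + 6 * (x0 * x1 * x2 + x0 * x1 * x3 + x0 * x2 * x3 + x1 * x2 * x3)) : False := by
  have amgm : ∀ a b c : ℝ, 0 ≤ a → 0 ≤ b → 0 ≤ c →
      6 * (a * b * c) ≤ a ^ 2 * b + a ^ 2 * c + b ^ 2 * a + b ^ 2 * c + c ^ 2 * a + c ^ 2 * b := by
    intro a b c ha hb hc
    nlinarith [mul_nonneg ha (sq_nonneg (b - c)), mul_nonneg hb (sq_nonneg (a - c)),
      mul_nonneg hc (sq_nonneg (a - b))]
  have g1 := amgm x0 x1 x2 hx0 hx1 hx2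
  have g2 := amgm x0 x1 x3 hx0 hx1 hx3
  have g3 := amgm x0 x2 x3 hx0 hx2 hx3
  have g4 := amgm x1 x2 x3 hx1 hx2 hx3
  have hN3 : N ^ 3 = (x0 ^ 3 + x1 ^ 3 + x2 ^ 3 + x3 ^ 3)
      + 3 * (x0 ^ 2 * x1 + x0 ^ 2 * x2 + x0 ^ 2 * x3 + x1 ^ 2 * x0 + x1 ^ 2 * x2 + x1 ^ 2 * x3
        + x2 ^ 2 * x0 + x2 ^ 2 * x1 + x2 ^ 2 * x3 + x3 ^ 2 * x0 + x3 ^ 2 * x1 + x3 ^ 2 * x2)
      + 6 * (x0 * x1 * x2 + x0 * x1 * x3 + x0 * x2 * x3 + x1 * x2 * x3) := by
    rw [← hsum]; ring
  have hE : 5 * (6 * (x0 * x1 * x2 + x0 * x1 * x3 + x0 * x2 * x3 + x1 * x2 * x3))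
      ≤ 2 * (N ^ 3 - (x0 ^ 3 + x1 ^ 3 + x2 ^ 3 + x3 ^ 3)) := by
    rw [hN3]; linarith
  have b0 : x0 ≤ 28 / 100 * N := by linarith
  have b1 : x1 ≤ 28 / 100 * N := by linarith
  have b2 : x2 ≤ 28 / 100 * N := by linarith
  have b3 : x3 ≤ 28 / 100 * N := by linarith
  have cube : ∀ x : ℝ, 0 ≤ x → x ≤ 28 / 100 * N → x ^ 3 ≤ (28 / 100 * N) ^ 2 * x := by
    intro x hx hb
    have : x ^ 2 ≤ (28 / 100 * N) ^ 2 := pow_le_pow_left₀ hx hb 2
    nlinarith
  have hS : x0 ^ 3 + x1 ^ 3 + x2 ^ 3 + x3 ^ 3 ≤ (28 / 100) ^ 2 * N ^ 3 := by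
    have := cube x0 hx0 b0
    have := cube x1 hx1 b1
    have := cube x2 hx2 b2
    have := cube x3 hx3 b3
    have e1 : (28 / 100 * N) ^ 2 * x0 + (28 / 100 * N) ^ 2 * x1 + (28 / 100 * N) ^ 2 * x2
        + (28 / 100 * N) ^ 2 * x3 = (28 / 100) ^ 2 * N ^ 3 := by
      rw [← mul_add, ← mul_add, ← mul_add, hsum]; ring
    linarith
  have hN3' : 0 < N ^ 3 := by positivity
  have hk : (p - 2 / 5) * (N ^ 3 - (x0 ^ 3 + x1 ^ 3 + x2 ^ 3 + x3 ^ 3)) ≤ e * N ^ 3 := by
    nlinarith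
  have hl : N ^ 3 / 2 ≤ N ^ 3 - (x0 ^ 3 + x1 ^ 3 + x2 ^ 3 + x3 ^ 3) := by
    nlinarith
  have hm : (p - 2 / 5) * (N ^ 3 / 2) ≤ e * N ^ 3 :=
    le_trans (mul_le_mul_of_nonneg_left hl (by linarith)) hk
  nlinarith

theorem t_END : S_END := by
  intro hST V _ _ r p e q hE hp hp1 he he' h4 hn hCl hFit
  choose i hi hD hC using hFit
  set N : ℝ := (Fintype.card V : ℝ) with hN
  have hN0 : 0 < N := by rw [hN]; exact_mod_cast hn
  have hN2 : 0 < N ^ 2 := by positivity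
  obtain ⟨y, hy⟩ : ∃ y : ℕ → ℝ, ∀ k, ((pt q k).card : ℝ) = y k * N :=
    ⟨fun k => ((pt q k).card : ℝ) / N, fun k => by field_simp⟩
  obtain ⟨f, hf⟩ : ∃ f : ℝ, (Fk r q : ℝ) = f * N ^ 2 :=
    ⟨(Fk r q : ℝ) / N ^ 2, by field_simp⟩
  obtain ⟨th, hth⟩ : ∃ th : ℝ, ((univ.filter (fun w : V => 4 ≤ q w)).card : ℝ) = th * N :=
    ⟨((univ.filter (fun w : V => 4 ≤ q w)).card : ℝ) / N, by field_simp⟩
  have f0 : 0 ≤ f := by
    have := (Nat.cast_nonneg (α := ℝ) (Fk r q))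
    rw [hf] at this
    exact nonneg_of_mul_nonneg_left this hN2
  have th0 : 0 ≤ th := by
    have := (Nat.cast_nonneg (α := ℝ) (univ.filter (fun w : V => 4 ≤ q w)).card)
    rw [hth] at this
    exact nonneg_of_mul_nonneg_left this hN0
  obtain ⟨sp1, sp2⟩ := sum_pt (V := V) q
  have c4 : ((univ.filter (fun w : V => q w < 4)).card : ℝ) = (1 - th) * N := by
    have : ((univ.filter (fun w : V => q w < 4)).card : ℝ)
        + ((univ.filter (fun w : V => 4 ≤ q w)).card : ℝ) = N := by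
      rw [hN]; exact_mod_cast sp2
    rw [hth] at this
    linarith
  have hsum : y 0 + y 1 + y 2 + y 3 = 1 - th := by
    have : ((pt q 0).card : ℝ) + ((pt q 1).card : ℝ) + ((pt q 2).card : ℝ) + ((pt q 3).card : ℝ)
        = ((univ.filter (fun w : V => q w < 4)).card : ℝ) := by exact_mod_cast sp1
    rw [c4, hy, hy, hy, hy, ← add_mul, ← add_mul, ← add_mul] at this
    exact mul_right_cancel₀ hN0.ne' this
  have F4 : 2 * f + 2 * th + 6 * (4 * (y 0 ^ 2 + y 1 ^ 2 + y 2 ^ 2 + y 3 ^ 2) - (1 - th) ^ 2)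
      ≤ 292 / 100000 := by
    have h := hCl
    unfold Close at h
    simp only [Finset.sum_range_succ, Finset.sum_range_zero, zero_add] at h
    rw [c4, hth, hf, hy, hy, hy, hy, ← hN] at h
    have h' : (2 * f + 2 * th + 6 * (4 * (y 0 ^ 2 + y 1 ^ 2 + y 2 ^ 2 + y 3 ^ 2) - (1 - th) ^ 2))
      * N ^ 2 ≤ 292 / 100000 * N ^ 2 := by linarith
    exact le_of_mul_le_mul_right h' hN2
  have hpair : ∀ k l, k < 4 → l < 4 → k ≠ l →
      488 / 1000 * N ≤ ((pt q k).card : ℝ) + ((pt q l).card : ℝ) := by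
    intro k l hk hl hkl
    have := pair_all y th f f0 th0 hsum F4 k l hk hl hkl
    rw [hy, hy, ← add_mul]
    exact mul_le_mul_of_nonneg_right this hN0.le
  have hs0 : 0 ≤ 4 * (y 0 ^ 2 + y 1 ^ 2 + y 2 ^ 2 + y 3 ^ 2) - (1 - th) ^ 2 := by
    rw [← hsum]
    nlinarith [sq_nonneg (y 0 - y 1), sq_nonneg (y 0 - y 2), sq_nonneg (y 0 - y 3),
      sq_nonneg (y 1 - y 2), sq_nonneg (y 1 - y 3), sq_nonneg (y 2 - y 3)]
  -- misplaced vertices
  set MS : Finset V := univ.filter (fun v => q v < 4 ∧ i v ≠ q v) with hMS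
  have hrow : ∀ v ∈ MS, 458 / 1000 * N ≤ ((∑ w, fk r q v w : ℕ) : ℝ) := by
    intro v hv
    rw [hMS, mem_filter] at hv
    obtain ⟨_, hv1, hv2⟩ := hv
    obtain ⟨l, m, h1, h2, h3, h4, h5, h6, h7⟩ := two_others (i v) (q v) (hi v) hv1 hv2
    have := row_ge r q v (i v) l m hv1 (hi v) h1 h2 hv2 h3 h4 h5 h6 h7
    have h' : ((pt q l).card : ℝ) + ((pt q m).card : ℝ)
        ≤ ((∑ w, fk r q v w : ℕ) : ℝ) + (Dv r q v (i v) : ℝ) := by exact_mod_cast this
    have := hpair l m h1 h2 h7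
    have := hD v
    linarith
  have hmis : (MS.card : ℝ) * (458 / 1000 * N) ≤ f * N ^ 2 := by
    rw [← hf]
    have e1 : (MS.card : ℝ) * (458 / 1000 * N) = ∑ v ∈ MS, (458 / 1000 * N) := by
      rw [Finset.sum_const, nsmul_eq_mul]
    rw [e1]
    calc ∑ v ∈ MS, (458 / 1000 * N) ≤ ∑ v ∈ MS, ((∑ w, fk r q v w : ℕ) : ℝ) :=
          Finset.sum_le_sum hrow
      _ ≤ ∑ v, ((∑ w, fk r q v w : ℕ) : ℝ) :=
          Finset.sum_le_sum_of_subset_of_nonneg (Finset.subset_univ _)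
            (fun _ _ _ => Nat.cast_nonneg _)
      _ = (Fk r q : ℝ) := by
          unfold Fk
          push_cast
          rfl
  have hmis2 : (MS.card : ℝ) ≤ 2184 / 1000 * f * N := by
    have : (MS.card : ℝ) * (458 / 1000) ≤ f * N := by
      have h' : ((MS.card : ℝ) * (458 / 1000)) * N ≤ (f * N) * N := by linarith
      exact le_of_mul_le_mul_right h' hN0
    have hfN : 0 ≤ f * N := mul_nonneg f0 hN0.le
    linarith
  set mu : ℕ := (univ.filter (fun w => q w ≠ i w)).card with hmu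
  have hmu1 : mu ≤ (univ.filter (fun w : V => 4 ≤ q w)).card + MS.card := by
    rw [hmu]
    refine le_trans (Finset.card_le_card ?_) (Finset.card_union_le _ _)
    intro w hw
    rw [mem_filter] at hw
    rw [mem_union, mem_filter, hMS, mem_filter]
    by_cases h : q w < 4
    · exact Or.inr ⟨mem_univ _, h, fun e => hw.2 e.symm⟩
    · exact Or.inl ⟨mem_univ _, by omega⟩
  have hmu2 : (mu : ℝ) ≤ 32 / 10000 * N := by
    have h : (mu : ℝ) ≤ ((univ.filter (fun w : V => 4 ≤ q w)).card : ℝ) + (MS.card : ℝ) := by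
      exact_mod_cast hmu1
    rw [hth] at h
    have h1 : f + th ≤ 146 / 100000 := by linarith
    have h2 : th * N + 2184 / 1000 * f * N ≤ 2184 / 1000 * ((f + th) * N) := by
      have : 0 ≤ th * N := mul_nonneg th0 hN0.le
      linarith
    have h3 : (f + th) * N ≤ 146 / 100000 * N := mul_le_mul_of_nonneg_right h1 hN0.le
    linarith
  -- the new partition
  have ha : ∀ v, ∑ w, fk r i v w ≤ Dv r q v (i v) + mu := by
    intro v
    rw [hmu, Dv, Finset.card_filter, Finset.card_filter, ← Finset.sum_add_distrib]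
    apply Finset.sum_le_sum
    intro w _
    unfold fk
    split_ifs with h1 h2 h3 h3 h2 h3 h3 <;> try omega
    exfalso
    push Not at h3
    rw [h3] at h2
    exact h2 ⟨h1.2.1, fun e => h1.2.2.1 e.symm, h1.2.2.2⟩
  have hb : ∀ v c, (univ.filter (fun w => i w = i v ∧ r v w = c)).card
      ≤ Cv r q v (i v) c + mu := by
    intro v c
    rw [hmu, Cv, Finset.card_filter, Finset.card_filter, Finset.card_filter,
      ← Finset.sum_add_distrib]
    apply Finset.sum_le_sum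
    intro w _
    split_ifs with h1 h2 h3 h3 h2 h3 h3 <;> omega
  have hc : ∀ k l, k ≠ l → (pt q k).card + (pt q l).card ≤ (pt i k).card + (pt i l).card + mu := by
    intro k l hkl
    simp only [pt, hmu, Finset.card_filter, ← Finset.sum_add_distrib]
    apply Finset.sum_le_sum
    intro w _
    split_ifs <;> omega
  set A : ℕ := ⌊(2414 / 10000 : ℝ) * N⌋₊ with hA
  have hA1 : (A : ℝ) ≤ 2414 / 10000 * N := Nat.floor_le (by positivity)
  have T := hST V r hE.ori i hi A (by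
    intro v c hc3
    have h1 := ha v
    have h2 := hb v c
    have h3 := hC v c hc3
    rw [hA]
    apply Nat.le_floor
    have h1' : ((∑ w, fk r i v w : ℕ) : ℝ) ≤ (Dv r q v (i v) : ℝ) + mu := by exact_mod_cast h1
    have h2' : ((univ.filter (fun w => i w = i v ∧ r v w = c)).card : ℝ)
      ≤ (Cv r q v (i v) c : ℝ) + mu := by exact_mod_cast h2
    rw [Nat.cast_add]
    linarith) (by
    intro k hk l hl hkl
    have h1 := hc k l hkl
    have h2 := hpair k l hk hl hkl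
    have h1' : ((pt q k).card : ℝ) + ((pt q l).card : ℝ)
      ≤ ((pt i k).card : ℝ) + ((pt i l).card : ℝ) + mu := by exact_mod_cast h1
    have : ((2 * A : ℕ) : ℝ) ≤ (((pt i k).card + (pt i l).card : ℕ) : ℝ) := by
      push_cast
      linarith
    exact_mod_cast this)
  have T' := (Nat.cast_le (α := ℝ)).2 T
  simp only [Finset.sum_range_succ, Finset.sum_range_zero, zero_add] at T'
  simp at T'
  have k0 := hE.cap (pt i 0)
  have k1 := hE.cap (pt i 1)
  have k2 := hE.cap (pt i 2)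
  have k3 := hE.cap (pt i 3)
  have kt := hE.tot
  rw [← hN] at kt
  have si : ((pt i 0).card : ℝ) + ((pt i 1).card : ℝ) + ((pt i 2).card : ℝ)
      + ((pt i 3).card : ℝ) = N := by
    obtain ⟨s1, s2⟩ := sum_pt (V := V) i
    have e1 : (univ.filter (fun w : V => 4 ≤ i w)).card = 0 := by
      rw [Finset.card_eq_zero, Finset.filter_eq_empty_iff]
      intro w _
      have := hi w
      omega
    rw [hN]
    have : (pt i 0).card + (pt i 1).card + (pt i 2).card + (pt i 3).card = Fintype.card V := by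
      omega
    exact_mod_cast this
  have pr : ∀ k l, k < 4 → l < 4 → k ≠ l →
      48 / 100 * N ≤ ((pt i k).card : ℝ) + ((pt i l).card : ℝ) := by
    intro k l hk hl hkl
    have h1 := hc k l hkl
    have h2 := hpair k l hk hl hkl
    have h1' : ((pt q k).card : ℝ) + ((pt q l).card : ℝ)
      ≤ ((pt i k).card : ℝ) + ((pt i l).card : ℝ) + mu := by exact_mod_cast h1
    linarith
  refine final p e N ((pt i 0).card : ℝ) ((pt i 1).card : ℝ) ((pt i 2).card : ℝ)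
    ((pt i 3).card : ℝ) hp h4 he hN0 (Nat.cast_nonneg _) (Nat.cast_nonneg _) (Nat.cast_nonneg _)
    (Nat.cast_nonneg _) si (pr 0 1 (by norm_num) (by norm_num) (by norm_num))
    (pr 0 2 (by norm_num) (by norm_num) (by norm_num))
    (pr 0 3 (by norm_num) (by norm_num) (by norm_num))
    (pr 1 2 (by norm_num) (by norm_num) (by norm_num))
    (pr 1 3 (by norm_num) (by norm_num) (by norm_num))
    (pr 2 3 (by norm_num) (by norm_num) (by norm_num)) ?_
  linarith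

end Pool.Agent.W721.P3.E
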