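import Pool.Agent.W163.P3.Stm2

set_option autoImplicit false
open Finset

namespace Pool.Agent.W721.P3
open Pool.Agent.W163.P3

lemma code_lt {V : Type} {r : V → V → ℕ} (h : Ori r) (x y : V) : r x y < 3 := by
  rcases h x y with ⟨h1, _⟩ | ⟨h1, _⟩ | ⟨h1, _⟩ <;> omega

lemma lab_iff (c k i : ℕ) (hc : c < 3) (hk : k < 4) (hi : i < 4) (hki : k ≠ i) :
    lab c k = i ↔ c = sd i k := by
  interval_cases c <;> interval_cases k <;> interval_cases i <;> simp [lab, sd] at *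

lemma lab_inj (c d k : ℕ) (hc : c < 3) (hd : d < 3) (hk : k < 4) :
    lab c k = lab d k ↔ c = d := by
  interval_cases c <;> interval_cases d <;> interval_cases k <;> simp [lab]

/-- the real core, label 0 is the best one -/
lemma core (h1 : S_RA1) (h2 : S_RA2) (h3 : S_RA3) (h4 : S_RA4)
    (y0 y1 y2 y3 a1 a2 a3 b0 b2 b3 c0 c1 c3 d0 d1 d2 t0 t1 t2 t3 f th e p : ℝ)
    (hy0 : 0 ≤ y0) (hy1 : 0 ≤ y1) (hy2 : 0 ≤ y2) (hy3 : 0 ≤ y3)
    (ha1 : 0 ≤ a1) (ha2 : 0 ≤ a2) (ha3 : 0 ≤ a3) (hb0 : 0 ≤ b0) (hb2 : 0 ≤ b2) (hb3 : 0 ≤ b3)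
    (hc0 : 0 ≤ c0) (hc1 : 0 ≤ c1) (hc3 : 0 ≤ c3) (hd0 : 0 ≤ d0) (hd1 : 0 ≤ d1) (hd2 : 0 ≤ d2)
    (hf : 0 ≤ f) (hth : 0 ≤ th) (he : 0 ≤ e) (he' : e ≤ 1 / 10 ^ 7) (hp : 2 / 5 ≤ p)
    (hsum : y0 + y1 + y2 + y3 = 1 - th)
    (ra : a1 + a2 + a3 = y0) (rb : b0 + b2 + b3 = y1) (rc : c0 + c1 + c3 = y2)
    (rd : d0 + d1 + d2 = y3)
    (T0 : t0 + (a1 ^ 2 + a2 ^ 2 + a3 ^ 2) ≤ y0 ^ 2)
    (T1 : t1 + (b0 ^ 2 + b2 ^ 2 + b3 ^ 2) ≤ y1 ^ 2)
    (T2 : t2 + (c0 ^ 2 + c1 ^ 2 + c3 ^ 2) ≤ y2 ^ 2)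
    (T3 : t3 + (d0 ^ 2 + d1 ^ 2 + d2 ^ 2) ≤ y3 ^ 2)
    (U0 : t0 + 2 * (y1 * y2 + y1 * y3 + y2 * y3) ≤ p + e + f)
    (L : p - e ≤ f + 2 * th + 2 * (b0 * c0 + b0 * d0 + c0 * d0 + a1 * c1 + a1 * d1 + c1 * d1
      + a2 * b2 + a2 * d2 + b2 * d2 + a3 * b3 + a3 * c3 + b3 * c3) + (t0 + t1 + t2 + t3))
    (hC : 2 * f + 2 * th + 6 * (4 * (y0 ^ 2 + y1 ^ 2 + y2 ^ 2 + y3 ^ 2) - (1 - th) ^ 2)
      ≤ 292 / 100000)
    (m1 : (y1 - b0) + (y2 - c0) + (y3 - d0) ≤ (y0 - a1) + (y2 - c1) + (y3 - d1))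
    (m2 : (y1 - b0) + (y2 - c0) + (y3 - d0) ≤ (y0 - a2) + (y1 - b2) + (y3 - d2))
    (m3 : (y1 - b0) + (y2 - c0) + (y3 - d0) ≤ (y0 - a3) + (y1 - b3) + (y2 - c3)) :
    (y1 - b0) + (y2 - c0) + (y3 - d0) ≤ 3 / 100 ∧
    a1 + ((y1 - b0) + (y2 - c0) + (y3 - d0)) ≤ 235 / 1000 ∧
    a2 + ((y1 - b0) + (y2 - c0) + (y3 - d0)) ≤ 235 / 1000 ∧
    a3 + ((y1 - b0) + (y2 - c0) + (y3 - d0)) ≤ 235 / 1000 := by
  have eb : b0 = y1 - b2 - b3 := by linarith
  have ec : c0 = y2 - c1 - c3 := by linarith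
  have ed : d0 = y3 - d1 - d2 := by linarith
  have key : RHyp y0 y1 y2 y3 a1 a2 a3 b2 b3 c1 c3 d1 d2 f th (2 * e) := by
    refine ⟨hy0, hy1, hy2, hy3, ha1, ha2, ha3, hb2, hb3, hc1, hc3, hd1, hd2, hf, hth, by linarith,
      by linarith, hsum, ra, by linarith, by linarith, by linarith, hC, by linarith, by linarith,
      by linarith, ?_, ?_, ?_⟩
    · have e0 : y1 + y2 + y3 - (b2 + b3 + c1 + c3 + d1 + d2) = b0 + c0 + d0 := by linarith
      rw [e0]
      have w0 : (b0 + c0 + d0) ^ 2 ≤ 3 * (b0 ^ 2 + c0 ^ 2 + d0 ^ 2) := by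
        linarith [sq_nonneg (b0 - c0), sq_nonneg (b0 - d0), sq_nonneg (c0 - d0)]
      have w1 : (a1 + c1 + d1) ^ 2 ≤ 3 * (a1 ^ 2 + c1 ^ 2 + d1 ^ 2) := by
        linarith [sq_nonneg (a1 - c1), sq_nonneg (a1 - d1), sq_nonneg (c1 - d1)]
      have w2 : (a2 + b2 + d2) ^ 2 ≤ 3 * (a2 ^ 2 + b2 ^ 2 + d2 ^ 2) := by
        linarith [sq_nonneg (a2 - b2), sq_nonneg (a2 - d2), sq_nonneg (b2 - d2)]
      have w3 : (a3 + b3 + c3) ^ 2 ≤ 3 * (a3 ^ 2 + b3 ^ 2 + c3 ^ 2) := by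
        linarith [sq_nonneg (a3 - b3), sq_nonneg (a3 - c3), sq_nonneg (b3 - c3)]
      have cr : 2 * (b0 * c0 + b0 * d0 + c0 * d0 + a1 * c1 + a1 * d1 + c1 * d1
          + a2 * b2 + a2 * d2 + b2 * d2 + a3 * b3 + a3 * c3 + b3 * c3)
          = (b0 + c0 + d0) ^ 2 + (a1 + c1 + d1) ^ 2 + (a2 + b2 + d2) ^ 2 + (a3 + b3 + c3) ^ 2
            - ((b0 ^ 2 + c0 ^ 2 + d0 ^ 2) + (a1 ^ 2 + c1 ^ 2 + d1 ^ 2)
              + (a2 ^ 2 + b2 ^ 2 + d2 ^ 2) + (a3 ^ 2 + b3 ^ 2 + c3 ^ 2)) := by ring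
      rw [cr] at L
      generalize (b0 + c0 + d0) ^ 2 = Z0 at *
      generalize (a1 + c1 + d1) ^ 2 = Z1 at *
      generalize (a2 + b2 + d2) ^ 2 = Z2 at *
      generalize (a3 + b3 + c3) ^ 2 = Z3 at *
      clear e0 eb ec ed ra rb rc rd m1 m2 m3 hC U0 cr
      linarith
    · have I : 2 * (b0 * c0 + b0 * d0 + c0 * d0 + a1 * c1 + a1 * d1 + c1 * d1
          + a2 * b2 + a2 * d2 + b2 * d2 + a3 * b3 + a3 * c3 + b3 * c3)
          + (y1 ^ 2 - (b0 ^ 2 + b2 ^ 2 + b3 ^ 2)) + (y2 ^ 2 - (c0 ^ 2 + c1 ^ 2 + c3 ^ 2))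
          + (y3 ^ 2 - (d0 ^ 2 + d1 ^ 2 + d2 ^ 2))
          = 2 * (y1 * y2 + y1 * y3 + y2 * y3) + LIN y1 y2 y3 a1 a2 a3 b2 b3 c1 c3 d1 d2
            + QQ b2 b3 c1 c3 d1 d2 := by
        rw [eb, ec, ed]; unfold LIN QQ; ring
      clear eb ec ed ra rb rc rd m1 m2 m3 hC
      generalize LIN y1 y2 y3 a1 a2 a3 b2 b3 c1 c3 d1 d2 = LI at *
      generalize QQ b2 b3 c1 c3 d1 d2 = QU at *
      linarith
    · have I : 2 * (b0 * c0 + b0 * d0 + c0 * d0 + a1 * c1 + a1 * d1 + c1 * d1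
          + a2 * b2 + a2 * d2 + b2 * d2 + a3 * b3 + a3 * c3 + b3 * c3)
          + (y1 ^ 2 - (b0 ^ 2 + b2 ^ 2 + b3 ^ 2)) + (y2 ^ 2 - (c0 ^ 2 + c1 ^ 2 + c3 ^ 2))
          + (y3 ^ 2 - (d0 ^ 2 + d1 ^ 2 + d2 ^ 2))
          = 2 * (y1 * y2 + y1 * y3 + y2 * y3) + LIN y1 y2 y3 a1 a2 a3 b2 b3 c1 c3 d1 d2
            + QQ b2 b3 c1 c3 d1 d2 := by
        rw [eb, ec, ed]; unfold LIN QQ; ring
      clear eb ec ed ra rb rc rd m1 m2 m3 hC
      generalize LIN y1 y2 y3 a1 a2 a3 b2 b3 c1 c3 d1 d2 = LI at *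
      generalize QQ b2 b3 c1 c3 d1 d2 = QU at *
      linarith
  have k1 := h1 _ _ _ _ _ _ _ _ _ _ _ _ _ _ _ _ key
  have k2 := h2 _ _ _ _ _ _ _ _ _ _ _ _ _ _ _ _ key k1
  have k3 := h3 _ _ _ _ _ _ _ _ _ _ _ _ _ _ _ _ key k2
  obtain ⟨q1, q2, q3⟩ := h4 _ _ _ _ _ _ _ _ _ _ _ _ _ _ _ _ key k3
  refine ⟨by linarith, by linarith, by linarith, by linarith⟩

lemma Dv_eq {V : Type} [Fintype V] {r : V → V → ℕ} (hr : Ori r) (q : V → ℕ) (v : V) (i : ℕ)
    (hi : i < 4) :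
    Dv r q v i + ∑ k ∈ range 4, (if k = i then 0 else Mm q (r v) k i)
      = ∑ k ∈ range 4, (if k = i then 0 else (pt q k).card) := by
  have e1 : ∀ k, (if k = i then 0 else Mm q (r v) k i)
      = ∑ w : V, (if k ≠ i ∧ q w = k ∧ lab (r v w) k = i then 1 else 0) := by
    intro k
    by_cases h : k = i
    · simp [h]
    · simp only [h, Mm, Finset.card_filter, if_false, ne_eq, not_false_eq_true, true_and]
  have e2 : ∀ k, (if k = i then 0 else (pt q k).card)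
      = ∑ w : V, (if k ≠ i ∧ q w = k then 1 else 0) := by
    intro k
    by_cases h : k = i
    · simp [h]
    · simp only [h, pt, Finset.card_filter, if_false, ne_eq, not_false_eq_true, true_and]
  simp only [e1, e2, Dv, Finset.card_filter]
  rw [Finset.sum_comm, Finset.sum_comm (s := range 4) (t := univ), ← Finset.sum_add_distrib]
  apply Finset.sum_congr rfl
  intro w _
  have hc := code_lt hr v w
  by_cases hq : q w < 4
  · have hl := fun hk : q w ≠ i => lab_iff (r v w) (q w) i hc hq hi hk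
    have s1 : ∑ k ∈ range 4, (if k ≠ i ∧ q w = k ∧ lab (r v w) k = i then 1 else 0)
        = (if q w ≠ i ∧ lab (r v w) (q w) = i then 1 else 0) := by
      rw [Finset.sum_eq_single (q w)]
      · simp
      · intro b _ hb
        rw [if_neg]
        rintro ⟨_, h, _⟩
        exact hb h.symm
      · intro h
        exact absurd (Finset.mem_range.2 hq) h
    have s2 : ∑ k ∈ range 4, (if k ≠ i ∧ q w = k then 1 else 0)
        = (if q w ≠ i then 1 else 0) := by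
      rw [Finset.sum_eq_single (q w)]
      · simp
      · intro b _ hb
        rw [if_neg]
        rintro ⟨_, h⟩
        exact hb h.symm
      · intro h
        exact absurd (Finset.mem_range.2 hq) h
    rw [s1, s2]
    by_cases hqi : q w = i
    · simp [hqi]
    · have := hl hqi
      by_cases h5 : r v w = sd i (q w)
      · have h6 := this.2 h5
        rw [if_neg (by tauto), if_pos ⟨hqi, h6⟩, if_pos hqi]
      · simp [hq, hqi, this, h5]
  · have s1 : ∑ k ∈ range 4, (if k ≠ i ∧ q w = k ∧ lab (r v w) k = i then 1 else 0) = 0 := by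
      apply Finset.sum_eq_zero
      intro k hk
      rw [if_neg]
      rintro ⟨_, h, _⟩
      rw [Finset.mem_range] at hk
      omega
    have s2 : ∑ k ∈ range 4, (if k ≠ i ∧ q w = k then 1 else 0) = 0 := by
      apply Finset.sum_eq_zero
      intro k hk
      rw [if_neg]
      rintro ⟨_, h⟩
      rw [Finset.mem_range] at hk
      omega
    rw [s1, s2]
    simp [hq]

lemma Cv_eq {V : Type} [Fintype V] {r : V → V → ℕ} (hr : Ori r) (q : V → ℕ) (v : V) (i c : ℕ)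
    (hi : i < 4) (hc : c < 3) :
    Cv r q v i c = Mm q (r v) i (lab c i) := by
  unfold Cv Mm
  congr 1
  ext w
  simp only [mem_filter, mem_univ, true_and]
  rw [lab_inj _ _ _ (code_lt hr v w) hc hi]

lemma sum_pt {V : Type} [Fintype V] (q : V → ℕ) :
    (pt q 0).card + (pt q 1).card + (pt q 2).card + (pt q 3).card
      = (univ.filter (fun w : V => q w < 4)).card ∧
    (univ.filter (fun w : V => q w < 4)).card + (univ.filter (fun w : V => 4 ≤ q w)).card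
      = Fintype.card V := by
  constructor
  · simp only [pt, Finset.card_filter, ← Finset.sum_add_distrib]
    apply Finset.sum_congr rfl
    intro w _
    by_cases h0 : q w = 0
    · simp [h0]
    by_cases h1 : q w = 1
    · simp [h1]
    by_cases h2 : q w = 2
    · simp [h2]
    by_cases h3 : q w = 3
    · simp [h3]
    have : ¬ (q w < 4) := by omega
    simp [h0, h1, h2, h3, this]
  · have := Finset.card_filter_add_card_filter_not (s := (univ : Finset V)) (fun w : V => q w < 4)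
    simpa [not_lt, Finset.card_univ] using this

/-- all the normalized facts at one vertex -/
theorem t_VERT : S_VERT := by
  intro hL1 hL2 hL3 h1 h2 h3 h4 V _ _ r p e q hE hp he he' hn hCl v
  set φ : V → ℕ := r v with hφ
  have hφ3 : ∀ w, φ w < 3 := fun w => code_lt hE.ori v w
  set N : ℝ := (Fintype.card V : ℝ) with hN
  have hN0 : 0 < N := by rw [hN]; exact_mod_cast hn
  have hN2 : 0 < N ^ 2 := by positivity
  -- the normalized quantities
  obtain ⟨y, hy⟩ : ∃ y : ℕ → ℝ, ∀ k, ((pt q k).card : ℝ) = y k * N :=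
    ⟨fun k => ((pt q k).card : ℝ) / N, fun k => by field_simp⟩
  obtain ⟨m, hm⟩ : ∃ m : ℕ → ℕ → ℝ, ∀ k i, (Mm q φ k i : ℝ) = m k i * N :=
    ⟨fun k i => (Mm q φ k i : ℝ) / N, fun k i => by field_simp⟩
  obtain ⟨t, ht⟩ : ∃ t : ℕ → ℝ, ∀ k, (tin r q φ k : ℝ) = t k * N ^ 2 :=
    ⟨fun k => (tin r q φ k : ℝ) / N ^ 2, fun k => by field_simp⟩
  obtain ⟨f, hf⟩ : ∃ f : ℝ, (Fk r q : ℝ) = f * N ^ 2 :=
    ⟨(Fk r q : ℝ) / N ^ 2, by field_simp⟩
  obtain ⟨th, hth⟩ : ∃ th : ℝ, ((univ.filter (fun w : V => 4 ≤ q w)).card : ℝ) = th * N :=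
    ⟨((univ.filter (fun w : V => 4 ≤ q w)).card : ℝ) / N, by field_simp⟩
  have y0 : ∀ k, 0 ≤ y k := fun k => by
    have := (Nat.cast_nonneg (α := ℝ) (pt q k).card)
    rw [hy] at this
    exact nonneg_of_mul_nonneg_left this hN0
  have m0 : ∀ k i, 0 ≤ m k i := fun k i => by
    have := (Nat.cast_nonneg (α := ℝ) (Mm q φ k i))
    rw [hm] at this
    exact nonneg_of_mul_nonneg_left this hN0
  have f0 : 0 ≤ f := by
    have := (Nat.cast_nonneg (α := ℝ) (Fk r q))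
    rw [hf] at this
    exact nonneg_of_mul_nonneg_left this hN2
  have th0 : 0 ≤ th := by
    have := (Nat.cast_nonneg (α := ℝ) (univ.filter (fun w : V => 4 ≤ q w)).card)
    rw [hth] at this
    exact nonneg_of_mul_nonneg_left this hN0
  obtain ⟨sp1, sp2⟩ := sum_pt (V := V) q
  have c4 : ((univ.filter (fun w : V => q w < 4)).card : ℝ) = (1 - th) * N := by
    have : ((univ.filter (fun w : V => q w < 4)).card : ℝ)
        + ((univ.filter (fun w : V => 4 ≤ q w)).card : ℝ) = N := by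
      rw [hN]; exact_mod_cast sp2
    rw [hth] at this
    linarith
  have hsum : y 0 + y 1 + y 2 + y 3 = 1 - th := by
    have : ((pt q 0).card : ℝ) + ((pt q 1).card : ℝ) + ((pt q 2).card : ℝ) + ((pt q 3).card : ℝ)
        = ((univ.filter (fun w : V => q w < 4)).card : ℝ) := by exact_mod_cast sp1
    rw [c4, hy, hy, hy, hy, ← add_mul, ← add_mul, ← add_mul] at this
    exact mul_right_cancel₀ hN0.ne' this
  -- facts L2
  have F1 : ∀ k, k < 4 → t k + (m k 0 ^ 2 + m k 1 ^ 2 + m k 2 ^ 2 + m k 3 ^ 2) ≤ y k ^ 2 := by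
    intro k hk
    have := (hL2 V r hE.ori q φ hφ3 k hk).1
    have h : (tin r q φ k : ℝ) + ∑ i ∈ range 4, (Mm q φ k i : ℝ) ^ 2 ≤ ((pt q k).card : ℝ) ^ 2 := by
      exact_mod_cast this
    simp only [Finset.sum_range_succ, Finset.sum_range_zero, hm, ht, hy, zero_add] at h
    have h' : (t k + (m k 0 ^ 2 + m k 1 ^ 2 + m k 2 ^ 2 + m k 3 ^ 2)) * N ^ 2 ≤ y k ^ 2 * N ^ 2 := by
      linarith
    exact le_of_mul_le_mul_right h' hN2
  have Fd : ∀ k, k < 4 → m k k = 0 := by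
    intro k hk
    have := (hL2 V r hE.ori q φ hφ3 k hk).2.1
    have h : (Mm q φ k k : ℝ) = 0 := by exact_mod_cast this
    rw [hm] at h
    rcases mul_eq_zero.1 h with h | h
    · exact h
    · exact absurd h hN0.ne'
  have Fr : ∀ k, k < 4 → m k 0 + m k 1 + m k 2 + m k 3 = y k := by
    intro k hk
    have := (hL2 V r hE.ori q φ hφ3 k hk).2.2
    have h : ∑ i ∈ range 4, (Mm q φ k i : ℝ) = ((pt q k).card : ℝ) := by exact_mod_cast this
    simp only [Finset.sum_range_succ, Finset.sum_range_zero, hm, hy, zero_add] at h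
    rw [← add_mul, ← add_mul, ← add_mul] at h
    exact mul_right_cancel₀ hN0.ne' h
  have F2 : ∀ k, k < 4 → t k + ∑ l ∈ range 4, ∑ j ∈ range 4,
      (if l ≠ j ∧ l ≠ k ∧ j ≠ k then y l * y j else 0) ≤ p + e + f := by
    intro k hk
    obtain ⟨ψ, hψ, h⟩ := hL3 V r hE.ori q φ hφ3 k hk
    have u := hE.upp ψ hψ
    have h' : (tin r q φ k : ℝ) + ∑ l ∈ range 4, ∑ j ∈ range 4,
        (if l ≠ j ∧ l ≠ k ∧ j ≠ k then ((pt q l).card : ℝ) * ((pt q j).card : ℝ) else 0)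
        ≤ (tph r ψ : ℝ) + (Fk r q : ℝ) := by
      have := (Nat.cast_le (α := ℝ)).2 h
      push_cast at this
      exact this
    have e1 : ∑ l ∈ range 4, ∑ j ∈ range 4,
        (if l ≠ j ∧ l ≠ k ∧ j ≠ k then ((pt q l).card : ℝ) * ((pt q j).card : ℝ) else 0)
        = (∑ l ∈ range 4, ∑ j ∈ range 4,
          (if l ≠ j ∧ l ≠ k ∧ j ≠ k then y l * y j else 0)) * N ^ 2 := by
      rw [Finset.sum_mul]
      apply Finset.sum_congr rfl
      intro l _
      rw [Finset.sum_mul]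
      apply Finset.sum_congr rfl
      intro j _
      split_ifs
      · rw [hy, hy]; ring
      · ring
    rw [e1, ht, hf] at h'
    have h'' : (t k + ∑ l ∈ range 4, ∑ j ∈ range 4,
        (if l ≠ j ∧ l ≠ k ∧ j ≠ k then y l * y j else 0)) * N ^ 2 ≤ (p + e + f) * N ^ 2 := by
      rw [← hN] at u
      linarith
    exact le_of_mul_le_mul_right h'' hN2
  have F3 : p - e ≤ f + 2 * th + 2 * (m 0 0 * m 1 0 + m 0 0 * m 2 0 + m 0 0 * m 3 0
      + m 1 0 * m 2 0 + m 1 0 * m 3 0 + m 2 0 * m 3 0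
      + m 0 1 * m 1 1 + m 0 1 * m 2 1 + m 0 1 * m 3 1
      + m 1 1 * m 2 1 + m 1 1 * m 3 1 + m 2 1 * m 3 1
      + m 0 2 * m 1 2 + m 0 2 * m 2 2 + m 0 2 * m 3 2
      + m 1 2 * m 2 2 + m 1 2 * m 3 2 + m 2 2 * m 3 2
      + m 0 3 * m 1 3 + m 0 3 * m 2 3 + m 0 3 * m 3 3
      + m 1 3 * m 2 3 + m 1 3 * m 3 3 + m 2 3 * m 3 3) + (t 0 + t 1 + t 2 + t 3) := by
    have h := hL1 V r hE.ori q φ hφ3
    have l := hE.low v
    have h' := (Nat.cast_le (α := ℝ)).2 h
    simp only [Finset.sum_range_succ, Finset.sum_range_zero, zero_add] at h'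
    simp at h'
    simp only [hm, ht, hf, hth] at h'
    rw [← hN] at l h'
    have h'' : (p - e) * N ^ 2 ≤ (f + 2 * th + 2 * (m 0 0 * m 1 0 + m 0 0 * m 2 0 + m 0 0 * m 3 0
      + m 1 0 * m 2 0 + m 1 0 * m 3 0 + m 2 0 * m 3 0
      + m 0 1 * m 1 1 + m 0 1 * m 2 1 + m 0 1 * m 3 1
      + m 1 1 * m 2 1 + m 1 1 * m 3 1 + m 2 1 * m 3 1
      + m 0 2 * m 1 2 + m 0 2 * m 2 2 + m 0 2 * m 3 2
      + m 1 2 * m 2 2 + m 1 2 * m 3 2 + m 2 2 * m 3 2
      + m 0 3 * m 1 3 + m 0 3 * m 2 3 + m 0 3 * m 3 3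
      + m 1 3 * m 2 3 + m 1 3 * m 3 3 + m 2 3 * m 3 3) + (t 0 + t 1 + t 2 + t 3)) * N ^ 2 := by
      linarith
    exact le_of_mul_le_mul_right h'' hN2
  have F4 : 2 * f + 2 * th + 6 * (4 * (y 0 ^ 2 + y 1 ^ 2 + y 2 ^ 2 + y 3 ^ 2) - (1 - th) ^ 2)
      ≤ 292 / 100000 := by
    have h := hCl
    unfold Close at h
    simp only [Finset.sum_range_succ, Finset.sum_range_zero, zero_add] at h
    rw [c4, hth, hf, hy, hy, hy, hy, ← hN] at h
    have h' : (2 * f + 2 * th + 6 * (4 * (y 0 ^ 2 + y 1 ^ 2 + y 2 ^ 2 + y 3 ^ 2) - (1 - th) ^ 2))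
      * N ^ 2 ≤ 292 / 100000 * N ^ 2 := by linarith
    exact le_of_mul_le_mul_right h' hN2
  have DD : ∀ i, i < 4 → (Dv r q v i : ℝ)
      = (∑ k ∈ range 4, (if k = i then 0 else (y k - m k i))) * N := by
    intro i hi
    have h := Dv_eq hE.ori q v i hi
    have h' : (Dv r q v i : ℝ) + ∑ k ∈ range 4, (if k = i then 0 else (Mm q φ k i : ℝ))
        = ∑ k ∈ range 4, (if k = i then 0 else ((pt q k).card : ℝ)) := by
      have := congrArg (Nat.cast (R := ℝ)) h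
      push_cast at this
      exact this
    have e1 : ∑ k ∈ range 4, (if k = i then 0 else (Mm q φ k i : ℝ))
        = (∑ k ∈ range 4, (if k = i then 0 else m k i)) * N := by
      rw [Finset.sum_mul]
      apply Finset.sum_congr rfl
      intro k _
      split_ifs
      · ring
      · rw [hm]
    have e2 : ∑ k ∈ range 4, (if k = i then 0 else ((pt q k).card : ℝ))
        = (∑ k ∈ range 4, (if k = i then 0 else y k)) * N := by
      rw [Finset.sum_mul]
      apply Finset.sum_congr rfl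
      intro k _
      split_ifs
      · ring
      · rw [hy]
    have e3 : ∑ k ∈ range 4, (if k = i then 0 else (y k - m k i))
        = ∑ k ∈ range 4, (if k = i then 0 else y k) - ∑ k ∈ range 4, (if k = i then 0 else m k i) := by
      rw [← Finset.sum_sub_distrib]
      apply Finset.sum_congr rfl
      intro k _
      split_ifs
      · ring
      · ring
    rw [e1, e2] at h'
    rw [e3, sub_mul]
    linarith
  obtain ⟨i, hi, hmin⟩ := Finset.exists_min_image (range 4)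
    (fun i => ∑ k ∈ range 4, (if k = i then 0 else (y k - m k i))) ⟨0, by simp⟩
  rw [Finset.mem_range] at hi
  have a0 := hmin 0 (by simp)
  have a1 := hmin 1 (by simp)
  have a2 := hmin 2 (by simp)
  have a3 := hmin 3 (by simp)
  have F10 := F1 0 (by norm_num)
  have F11 := F1 1 (by norm_num)
  have F12 := F1 2 (by norm_num)
  have F13 := F1 3 (by norm_num)
  have F20 := F2 0 (by norm_num)
  have F21 := F2 1 (by norm_num)
  have F22 := F2 2 (by norm_num)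
  have F23 := F2 3 (by norm_num)
  have R0 := Fr 0 (by norm_num)
  have R1 := Fr 1 (by norm_num)
  have R2 := Fr 2 (by norm_num)
  have R3 := Fr 3 (by norm_num)
  have E0 := Fd 0 (by norm_num)
  have E1 := Fd 1 (by norm_num)
  have E2 := Fd 2 (by norm_num)
  have E3 := Fd 3 (by norm_num)
  rw [E0] at F10 R0 F3
  rw [E1] at F11 R1 F3
  rw [E2] at F12 R2 F3
  rw [E3] at F13 R3 F3
  simp [Finset.sum_range_succ] at F20 F21 F22 F23
  refine ⟨i, hi, ?_⟩
  have fin : (∑ k ∈ range 4, (if k = i then 0 else (y k - m k i))) ≤ 3 / 100 ∧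
      ∀ j < 4, j ≠ i →
        m i j + (∑ k ∈ range 4, (if k = i then 0 else (y k - m k i))) ≤ 235 / 1000 := by
    interval_cases i
    · simp [Finset.sum_range_succ] at a1 a2 a3
      obtain ⟨b0, b1, b2, b3⟩ := core h1 h2 h3 h4 (y 0) (y 1) (y 2) (y 3)
        (m 0 1) (m 0 2) (m 0 3) (m 1 0) (m 1 2) (m 1 3) (m 2 0) (m 2 1) (m 2 3)
        (m 3 0) (m 3 1) (m 3 2) (t 0) (t 1) (t 2) (t 3) f th e p
        (y0 _) (y0 _) (y0 _) (y0 _) (m0 _ _) (m0 _ _) (m0 _ _) (m0 _ _) (m0 _ _) (m0 _ _)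
        (m0 _ _) (m0 _ _) (m0 _ _) (m0 _ _) (m0 _ _) (m0 _ _) f0 th0 he he' hp
        (by linarith) (by linarith) (by linarith) (by linarith) (by linarith)
        (by linarith) (by linarith) (by linarith) (by linarith) (by linarith) (by linarith)
        (by linarith) (by linarith) (by linarith) (by linarith)
      have es : (∑ k ∈ range 4, (if k = 0 then 0 else (y k - m k 0)))
          = (y 1 - m 1 0) + (y 2 - m 2 0) + (y 3 - m 3 0) := by
        simp [Finset.sum_range_succ]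
      rw [es]
      refine ⟨by linarith, ?_⟩
      intro j hj hj'
      interval_cases j
      · exact absurd rfl hj'
      all_goals linarith
    · simp [Finset.sum_range_succ] at a0 a2 a3
      obtain ⟨b0, b1, b2, b3⟩ := core h1 h2 h3 h4 (y 1) (y 2) (y 3) (y 0)
        (m 1 2) (m 1 3) (m 1 0) (m 2 1) (m 2 3) (m 2 0) (m 3 1) (m 3 2) (m 3 0)
        (m 0 1) (m 0 2) (m 0 3) (t 1) (t 2) (t 3) (t 0) f th e p
        (y0 _) (y0 _) (y0 _) (y0 _) (m0 _ _) (m0 _ _) (m0 _ _) (m0 _ _) (m0 _ _) (m0 _ _)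
        (m0 _ _) (m0 _ _) (m0 _ _) (m0 _ _) (m0 _ _) (m0 _ _) f0 th0 he he' hp
        (by linarith) (by linarith) (by linarith) (by linarith) (by linarith)
        (by linarith) (by linarith) (by linarith) (by linarith) (by linarith) (by linarith)
        (by linarith) (by linarith) (by linarith) (by linarith)
      have es : (∑ k ∈ range 4, (if k = 1 then 0 else (y k - m k 1)))
          = (y 2 - m 2 1) + (y 3 - m 3 1) + (y 0 - m 0 1) := by
        simp [Finset.sum_range_succ]; ring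
      rw [es]
      refine ⟨by linarith, ?_⟩
      intro j hj hj'
      interval_cases j
      · linarith
      · exact absurd rfl hj'
      all_goals linarith
    · simp [Finset.sum_range_succ] at a0 a1 a3
      obtain ⟨b0, b1, b2, b3⟩ := core h1 h2 h3 h4 (y 2) (y 3) (y 0) (y 1)
        (m 2 3) (m 2 0) (m 2 1) (m 3 2) (m 3 0) (m 3 1) (m 0 2) (m 0 3) (m 0 1)
        (m 1 2) (m 1 3) (m 1 0) (t 2) (t 3) (t 0) (t 1) f th e p
        (y0 _) (y0 _) (y0 _) (y0 _) (m0 _ _) (m0 _ _) (m0 _ _) (m0 _ _) (m0 _ _) (m0 _ _)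
        (m0 _ _) (m0 _ _) (m0 _ _) (m0 _ _) (m0 _ _) (m0 _ _) f0 th0 he he' hp
        (by linarith) (by linarith) (by linarith) (by linarith) (by linarith)
        (by linarith) (by linarith) (by linarith) (by linarith) (by linarith) (by linarith)
        (by linarith) (by linarith) (by linarith) (by linarith)
      have es : (∑ k ∈ range 4, (if k = 2 then 0 else (y k - m k 2)))
          = (y 3 - m 3 2) + (y 0 - m 0 2) + (y 1 - m 1 2) := by
        simp [Finset.sum_range_succ]; ring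
      rw [es]
      refine ⟨by linarith, ?_⟩
      intro j hj hj'
      interval_cases j
      · linarith
      · linarith
      · exact absurd rfl hj'
      all_goals linarith
    · simp [Finset.sum_range_succ] at a0 a1 a2
      obtain ⟨b0, b1, b2, b3⟩ := core h1 h2 h3 h4 (y 3) (y 0) (y 1) (y 2)
        (m 3 0) (m 3 1) (m 3 2) (m 0 3) (m 0 1) (m 0 2) (m 1 3) (m 1 0) (m 1 2)
        (m 2 3) (m 2 0) (m 2 1) (t 3) (t 0) (t 1) (t 2) f th e p
        (y0 _) (y0 _) (y0 _) (y0 _) (m0 _ _) (m0 _ _) (m0 _ _) (m0 _ _) (m0 _ _) (m0 _ _)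
        (m0 _ _) (m0 _ _) (m0 _ _) (m0 _ _) (m0 _ _) (m0 _ _) f0 th0 he he' hp
        (by linarith) (by linarith) (by linarith) (by linarith) (by linarith)
        (by linarith) (by linarith) (by linarith) (by linarith) (by linarith) (by linarith)
        (by linarith) (by linarith) (by linarith) (by linarith)
      have es : (∑ k ∈ range 4, (if k = 3 then 0 else (y k - m k 3)))
          = (y 0 - m 0 3) + (y 1 - m 1 3) + (y 2 - m 2 3) := by
        simp [Finset.sum_range_succ]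
      rw [es]
      refine ⟨by linarith, ?_⟩
      intro j hj hj'
      interval_cases j
      · linarith
      · linarith
      · linarith
      · exact absurd rfl hj'
  obtain ⟨g1, g2⟩ := fin
  constructor
  · rw [DD i hi]
    exact mul_le_mul_of_nonneg_right g1 hN0.le
  · intro c hc
    rw [DD i hi, Cv_eq hE.ori q v i c hi hc, hm, ← add_mul]
    apply mul_le_mul_of_nonneg_right _ hN0.le
    apply g2
    · unfold lab; omega
    · interval_cases c <;> interval_cases i <;> simp [lab]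

end Pool.Agent.W721.P3
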